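import Pool.Agent.Helper10.K3R.Mods

/-!
# Approximable systems with a real component
-/

namespace KumWA

open Classical Topology

/-- a real datum -/
structure RLoc where
  d : ℝ
  hd : d ≠ 0
  P : E d
  Q : E d

/-- the embedding of `ℚ` in `ℝ` -/
noncomputable abbrev embR : ℚ →+* ℝ := Rat.castHom ℝ

/-- the global datum `(e, A, B)` is close to the real datum `t` -/
def AtR (R : ℝ) {e : ℚ} (A B : E e) (t : RLoc) : Prop :=
  ∃ (c : ℝ) (hc : c ≠ 0) (h : embR e = t.d * c ^ 2),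
    Far R (tr embR hc t.hd h A - t.P) ∧ Far R (tr embR hc t.hd h B - t.Q)

/-- the global datum `(e, A, B)` is close to the `p`-adic datum `l` -/
def AtP {p : ℕ} [Fact p.Prime] (n : ℕ) {e : ℚ} (A B : E e) (l : Loc p) : Prop :=
  ∃ (c : ℚ_[p]) (hc : c ≠ 0) (h : emb p e = l.d * c ^ 2),
    fil n (tr (emb p) hc (nd_ne l.hd) h A - l.Q) ∧ fil n (tr (emb p) hc (nd_ne l.hd) h B - l.R)

/-- approximable families of local data -/
def AppR (S : Finset P5) (l : ∀ i : S, Loc ((i : P5) : ℕ)) (t : RLoc) : Prop :=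
  ∀ (n : ℕ) (R : ℝ), ∃ (e : ℚ) (A B : E e), e ≠ 0 ∧ (∀ i, AtP n A B (l i)) ∧ AtR R A B t

/-- closeness of real data -/
def RNear (R : ℝ) (t' t : RLoc) : Prop :=
  ∃ P' Q' : E t.d, t' = ⟨t.d, t.hd, P', Q'⟩ ∧ Far R (P' - t.P) ∧ Far R (Q' - t.Q)

theorem far_zero' {d : ℝ} (R : ℝ) : Far R (0 : E d) := Or.inl rfl

theorem RNear.refl (R : ℝ) (t : RLoc) : RNear R t t := by
  refine ⟨t.P, t.Q, rfl, ?_, ?_⟩ <;> rw [sub_self] <;> exact far_zero' R

theorem far_add' (d R : ℝ) :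
    ∃ R' : ℝ, R ≤ R' ∧ ∀ P Q : E d, Far R' P → Far R' Q → Far R (P + Q) := by
  obtain ⟨R', h1, h2⟩ := far_add d (R := max R 1) (lt_max_of_lt_right one_pos)
  exact ⟨R', (le_max_left _ _).trans h1, fun P Q hP hQ => (h2 P Q hP hQ).mono (le_max_left _ _)⟩

theorem far_nsmul (d : ℝ) (k : ℕ) : ∀ R : ℝ, ∃ R' : ℝ, ∀ P : E d, Far R' P → Far R (k • P) := by
  induction k with
  | zero => exact fun R => ⟨0, fun P _ => by rw [zero_smul]; exact far_zero' R⟩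
  | succ k ih =>
    intro R
    obtain ⟨R₁, -, h1⟩ := far_add' d R
    obtain ⟨R₂, h2⟩ := ih R₁
    refine ⟨max R₁ R₂, fun P hP => ?_⟩
    rw [succ_nsmul]
    exact h1 _ _ (h2 _ (hP.mono (le_max_right _ _))) (hP.mono (le_max_left _ _))

theorem far_zsmul (d : ℝ) (k : ℤ) (R : ℝ) : ∃ R' : ℝ, ∀ P : E d, Far R' P → Far R (k • P) := by
  obtain ⟨R', h⟩ := far_nsmul d k.natAbs R
  refine ⟨R', fun P hP => ?_⟩
  rcases Int.natAbs_eq k with hk | hk
  · rw [hk, natCast_zsmul]; exact h P hP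
  · rw [hk, neg_zsmul, natCast_zsmul]; exact (h P hP).neg

theorem far_lin (d : ℝ) (α β : ℤ) (R : ℝ) : ∃ R' : ℝ, ∀ P Q : E d, Far R' P → Far R' Q →
    Far R (α • P + β • Q) := by
  obtain ⟨R₁, -, h1⟩ := far_add' d R
  obtain ⟨R₂, h2⟩ := far_zsmul d α R₁
  obtain ⟨R₃, h3⟩ := far_zsmul d β R₁
  exact ⟨max R₂ R₃, fun P Q hP hQ => h1 _ _ (h2 _ (hP.mono (le_max_left _ _)))
    (h3 _ (hQ.mono (le_max_right _ _)))⟩

/-- linear images -/
noncomputable def RLoc.lin (t : RLoc) (α β γ δ : ℤ) : RLoc :=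
  ⟨t.d, t.hd, α • t.P + β • t.Q, γ • t.P + δ • t.Q⟩

/-- linear images -/
noncomputable def Loc.lin {p : ℕ} [Fact p.Prime] (l : Loc p) (α β γ δ : ℤ) : Loc p :=
  ⟨l.d, l.hd, α • l.Q + β • l.R, γ • l.Q + δ • l.R⟩

theorem AtP.lin {p : ℕ} [Fact p.Prime] {n : ℕ} {e : ℚ} {A B : E e} {l : Loc p} (h : AtP n A B l)
    (α β γ δ : ℤ) : AtP n (α • A + β • B) (γ • A + δ • B) (l.lin α β γ δ) := by
  obtain ⟨c, hc, hce, hA, hB⟩ := h
  have hn := nd_okl l.hd n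
  refine ⟨c, hc, hce, ?_, ?_⟩
  · have e1 : tr (emb p) hc (nd_ne l.hd) hce (α • A + β • B) - (α • l.Q + β • l.R) =
        α • (tr (emb p) hc (nd_ne l.hd) hce A - l.Q) +
          β • (tr (emb p) hc (nd_ne l.hd) hce B - l.R) := by
      rw [map_add, map_zsmul, map_zsmul, zsmul_sub, zsmul_sub]; abel
    change fil n (tr (emb p) hc (nd_ne l.hd) hce (α • A + β • B) - (α • l.Q + β • l.R))
    rw [e1]
    exact fil_add hn (fil_zsmul hn hA _) (fil_zsmul hn hB _)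
  · have e1 : tr (emb p) hc (nd_ne l.hd) hce (γ • A + δ • B) - (γ • l.Q + δ • l.R) =
        γ • (tr (emb p) hc (nd_ne l.hd) hce A - l.Q) +
          δ • (tr (emb p) hc (nd_ne l.hd) hce B - l.R) := by
      rw [map_add, map_zsmul, map_zsmul, zsmul_sub, zsmul_sub]; abel
    change fil n (tr (emb p) hc (nd_ne l.hd) hce (γ • A + δ • B) - (γ • l.Q + δ • l.R))
    rw [e1]
    exact fil_add hn (fil_zsmul hn hA _) (fil_zsmul hn hB _)

theorem exists_atR_lin (t : RLoc) (α β γ δ : ℤ) (R : ℝ) : ∃ R' : ℝ, ∀ {e : ℚ} {A B : E e},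
    AtR R' A B t → AtR R (α • A + β • B) (γ • A + δ • B) (t.lin α β γ δ) := by
  obtain ⟨R₁, h1⟩ := far_lin t.d α β R
  obtain ⟨R₂, h2⟩ := far_lin t.d γ δ R
  refine ⟨max R₁ R₂, ?_⟩
  rintro e A B ⟨c, hc, hce, hA, hB⟩
  refine ⟨c, hc, hce, ?_, ?_⟩
  · have e1 : tr embR hc t.hd hce (α • A + β • B) - (α • t.P + β • t.Q) =
        α • (tr embR hc t.hd hce A - t.P) + β • (tr embR hc t.hd hce B - t.Q) := by
      rw [map_add, map_zsmul, map_zsmul, zsmul_sub, zsmul_sub]; abel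
    change Far R (tr embR hc t.hd hce (α • A + β • B) - (α • t.P + β • t.Q))
    rw [e1]
    exact h1 _ _ (hA.mono (le_max_left _ _)) (hB.mono (le_max_left _ _))
  · have e1 : tr embR hc t.hd hce (γ • A + δ • B) - (γ • t.P + δ • t.Q) =
        γ • (tr embR hc t.hd hce A - t.P) + δ • (tr embR hc t.hd hce B - t.Q) := by
      rw [map_add, map_zsmul, map_zsmul, zsmul_sub, zsmul_sub]; abel
    change Far R (tr embR hc t.hd hce (γ • A + δ • B) - (γ • t.P + δ • t.Q))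
    rw [e1]
    exact h2 _ _ (hA.mono (le_max_right _ _)) (hB.mono (le_max_right _ _))

theorem AppR.lin {S : Finset P5} {l : ∀ i : S, Loc ((i : P5) : ℕ)} {t : RLoc} (h : AppR S l t)
    (α β γ δ : ℤ) : AppR S (fun i => (l i).lin α β γ δ) (t.lin α β γ δ) := by
  intro n R
  obtain ⟨R', hR'⟩ := exists_atR_lin t α β γ δ R
  obtain ⟨e, A, B, he, h1, h2⟩ := h n R'
  exact ⟨e, _, _, he, fun i => (h1 i).lin α β γ δ, hR' h2⟩

theorem AppR.closed {S : Finset P5} {l : ∀ i : S, Loc ((i : P5) : ℕ)} {t : RLoc}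
    (h : ∀ (n : ℕ) (R : ℝ), ∃ l' t', AppR S l' t' ∧ (∀ i, LNear n (l' i) (l i)) ∧ RNear R t' t) :
    AppR S l t := by
  intro n R
  obtain ⟨R₁, hR, h1⟩ := far_add' t.d R
  obtain ⟨l', t', h2, h3, P', Q', rfl, h4, h5⟩ := h n R₁
  obtain ⟨e, A, B, he, h6, c, hc, hce, h7, h8⟩ := h2 n R₁
  refine ⟨e, A, B, he, fun i => ?_, c, hc, hce, ?_, ?_⟩
  · obtain ⟨Q₁, R₁, h9, h10, h11⟩ := h3 i
    have h12 := h6 i
    rw [h9] at h12
    obtain ⟨c, hc, hce, hA, hB⟩ := h12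
    have hn := nd_okl (l i).hd n
    refine ⟨c, hc, hce, ?_, ?_⟩
    · have := fil_add hn hA h10
      rwa [sub_add_sub_cancel] at this
    · have := fil_add hn hB h11
      rwa [sub_add_sub_cancel] at this
  · have := h1 _ _ h7 h4
    rwa [sub_add_sub_cancel] at this
  · have := h1 _ _ h8 h5
    rwa [sub_add_sub_cancel] at this

theorem AppR.addT {S : Finset P5} {l : ∀ i : S, Loc ((i : P5) : ℕ)} {t : RLoc} (h : AppR S l t) :
    AppR S (fun i => ⟨(l i).d, (l i).hd, (l i).Q + T (nd_ne (l i).hd), (l i).R⟩)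
      ⟨t.d, t.hd, t.P + T t.hd, t.Q⟩ := by
  intro n R
  obtain ⟨e, A, B, he, h1, c, hc, hce, h2, h3⟩ := h n R
  refine ⟨e, A + T he, B, he, fun i => ?_, c, hc, hce, ?_, h3⟩
  · obtain ⟨c, hc, hce, hA, hB⟩ := h1 i
    refine ⟨c, hc, hce, ?_, hB⟩
    rw [map_add, tr_T _ hc he (nd_ne (l i).hd) hce, add_sub_add_right_eq_sub]
    exact hA
  · rw [map_add, tr_T _ hc he t.hd hce, add_sub_add_right_eq_sub]
    exact h2

theorem AppR.addT' {S : Finset P5} {l : ∀ i : S, Loc ((i : P5) : ℕ)} {t : RLoc} (h : AppR S l t) :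
    AppR S (fun i => ⟨(l i).d, (l i).hd, (l i).Q, (l i).R + T (nd_ne (l i).hd)⟩)
      ⟨t.d, t.hd, t.P, t.Q + T t.hd⟩ := by
  intro n R
  obtain ⟨e, A, B, he, h1, c, hc, hce, h2, h3⟩ := h n R
  refine ⟨e, A, B + T he, he, fun i => ?_, c, hc, hce, h2, ?_⟩
  · obtain ⟨c, hc, hce, hA, hB⟩ := h1 i
    refine ⟨c, hc, hce, hA, ?_⟩
    rw [map_add, tr_T _ hc he (nd_ne (l i).hd) hce, add_sub_add_right_eq_sub]
    exact hB
  · rw [map_add, tr_T _ hc he t.hd hce, add_sub_add_right_eq_sub]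
    exact h3

/-! ### the surface -/

/-- a family of local points which is a limit of rational points -/
def NearR (S : Finset P5) (v : ∀ i : S, Pt ℚ_[((i : P5) : ℕ)]) (w : Pt ℝ) : Prop :=
  ∀ (U : ∀ i : S, Set (Pt ℚ_[((i : P5) : ℕ)])) (V : Set (Pt ℝ)), (∀ i, U i ∈ 𝓝 (v i)) → V ∈ 𝓝 w →
    ∃ u : Pt ℚ, (∀ i, Pt.map (emb ((i : P5) : ℕ)) u ∈ U i) ∧ Pt.map embR u ∈ V

theorem nearR_of_appR {S : Finset P5} {l : ∀ i : S, Loc ((i : P5) : ℕ)} {t : RLoc}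
    (h : AppR S l t) {v : ∀ i : S, Pt ℚ_[((i : P5) : ℕ)]} {w : Pt ℝ}
    (hv : ∀ i, Rep (v i) (l i).d (l i).Q (l i).R) (hw : Rep w t.d t.P t.Q) : NearR S v w := by
  intro U V hU hV
  choose n hn using fun i => loc_f1 (nd_okl (l i).hd 0) (hv i) (hU i)
  obtain ⟨R, hR0, hR⟩ := loc_f1_real hw hV
  obtain ⟨e, A, B, he, H, c, hc, hce, hA, hB⟩ := h (Finset.univ.sup n) R
  obtain ⟨k1, k2, k3, k4, k5⟩ := hR _ _ hA hB
  have hyA : yc A ≠ 0 := by
    rintro h0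
    apply k3
    rw [yc_tr, h0]; simp
  have hyB : yc B ≠ 0 := by
    rintro h0
    apply k4
    rw [yc_tr, h0]; simp
  obtain ⟨-, g1, g2, g3, g4, g5⟩ := rep_mkPt he hyA hyB
  refine ⟨mkPt he A B hyA hyB, fun i => ?_, ?_⟩
  · obtain ⟨c, hc, hce, hA, hB⟩ := H i
    have hle : n i ≤ Finset.univ.sup n := Finset.le_sup (Finset.mem_univ i)
    obtain ⟨h1, h2, h3, h4, h5⟩ := hn i _ _ (fil_mono hle hA) (fil_mono hle hB)
    apply h5
    have f3 := congrArg (emb ((i : P5) : ℕ)) g3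
    have f4 := congrArg (emb ((i : P5) : ℕ)) g4
    have f5 := congrArg (emb ((i : P5) : ℕ)) g5
    rw [map_mul, hce] at f3 f4
    rw [map_mul, map_mul, map_pow, hce] at f5
    have hd := nd_ne (l i).hd
    refine ⟨hd, tr_ne _ hc hd hce g1, tr_ne _ hc hd hce g2, ?_, ?_, ?_⟩
    · rw [Pt.map_x, xc_tr, ← f3]; field_simp
    · rw [Pt.map_y, xc_tr, ← f4]; field_simp
    · rw [Pt.map_z, yc_tr, yc_tr]
      field_simp
      linear_combination f5
  · apply k5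
    have f3 := congrArg embR g3
    have f4 := congrArg embR g4
    have f5 := congrArg embR g5
    rw [map_mul, hce] at f3 f4
    rw [map_mul, map_mul, map_pow, hce] at f5
    have hd := t.hd
    refine ⟨hd, tr_ne _ hc hd hce g1, tr_ne _ hc hd hce g2, ?_, ?_, ?_⟩
    · rw [Pt.map_x, xc_tr, ← f3]; field_simp
    · rw [Pt.map_y, xc_tr, ← f4]; field_simp
    · rw [Pt.map_z, yc_tr, yc_tr]
      field_simp
      linear_combination f5

theorem appR_of_nearR {S : Finset P5} {l : ∀ i : S, Loc ((i : P5) : ℕ)} {t : RLoc}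
    {v : ∀ i : S, Pt ℚ_[((i : P5) : ℕ)]} {w : Pt ℝ} (h : NearR S v w)
    (hv : ∀ i, Rep (v i) (l i).d (l i).Q (l i).R) (hw : Rep w t.d t.P t.Q) : AppR S l t := by
  intro n R
  obtain ⟨u, hu, hur⟩ := h _ _ (fun i => loc_f2 (p_ne_two (i : P5).2.2) (hv i) n)
    (loc_f2_real hw R)
  have he : ff u.x ≠ 0 := u.hfx
  set e := ff u.x with hedef
  have hAeq : (e ^ 2) ^ 2 = (e * u.x) ^ 3 + 4 * e * (e * u.x) ^ 2 + 2 * e ^ 2 * (e * u.x) := by
    have : e = u.x ^ 3 + 4 * u.x ^ 2 + 2 * u.x := rfl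
    linear_combination e ^ 3 * this
  have hBeq : (e * u.z) ^ 2 = (e * u.y) ^ 3 + 4 * e * (e * u.y) ^ 2 + 2 * e ^ 2 * (e * u.y) := by
    have h1 := u.eqn
    have : ff u.y = u.y ^ 3 + 4 * u.y ^ 2 + 2 * u.y := rfl
    rw [mul_pow, h1, ← hedef, this]; ring
  refine ⟨e, mkP he (e * u.x) (e ^ 2) hAeq, mkP he (e * u.y) (e * u.z) hBeq, he, fun i => ?_, ?_⟩
  · obtain ⟨c, hc, hce, H⟩ := hu i
    have hd := nd_ne (l i).hd
    have hce' : emb ((i : P5) : ℕ) e = (l i).d * c ^ 2 := by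
      rw [← hce, hedef, map_ff]; rfl
    refine ⟨c, hc, hce', ?_⟩
    apply H
    · exact tr_ne _ hc hd hce' (mkP_ne _ _ _ _)
    · exact tr_ne _ hc hd hce' (mkP_ne _ _ _ _)
    · rw [xc_tr, xc_mkP, map_mul, hce', Pt.map_x]; field_simp
    · rw [yc_tr, yc_mkP, map_pow, hce']; field_simp
    · rw [xc_tr, xc_mkP, map_mul, hce', Pt.map_y]; field_simp
    · rw [yc_tr, yc_mkP, map_mul, hce', Pt.map_z]; field_simp
  · obtain ⟨c, hc, hce, H⟩ := hur
    have hd := t.hd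
    have hce' : embR e = t.d * c ^ 2 := by
      rw [← hce, hedef, map_ff]; rfl
    refine ⟨c, hc, hce', ?_⟩
    apply H
    · exact tr_ne _ hc hd hce' (mkP_ne _ _ _ _)
    · exact tr_ne _ hc hd hce' (mkP_ne _ _ _ _)
    · rw [xc_tr, xc_mkP, map_mul, hce', Pt.map_x]; field_simp
    · rw [yc_tr, yc_mkP, map_pow, hce']; field_simp
    · rw [xc_tr, xc_mkP, map_mul, hce', Pt.map_y]; field_simp
    · rw [yc_tr, yc_mkP, map_mul, hce', Pt.map_z]; field_simp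

theorem nearR_iota {S : Finset P5} {v : ∀ i : S, Pt ℚ_[((i : P5) : ℕ)]} {w : Pt ℝ}
    (h : NearR S v w) (hv : ∀ i, IOK (v i)) (hw : IOK w) :
    NearR S (fun i => iota (v i) (hv i)) (iota w hw) := by
  intro U V hU hV
  obtain ⟨u, h1, h2⟩ := h _ _ (fun i => iota_nhds (hv i) (hU i)) (iota_nhds_real hw hV)
  obtain ⟨h2a, h2b⟩ := h2
  have hu : IOK u := (IOK_map embR u).1 h2a
  refine ⟨iota u hu, fun i => ?_, ?_⟩
  · obtain ⟨h3a, h3b⟩ := h1 i
    rw [iota_map]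
    exact h3b
  · rw [iota_map]
    exact h2b

/-- real data exchanged by the involution -/
def SigR (t t' : RLoc) : Prop :=
  ∃ (u : Pt ℝ) (h : IOK u), Rep u t.d t.P t.Q ∧ Rep (iota u h) t'.d t'.P t'.Q

theorem AppR.sig {S : Finset P5} {l l' : ∀ i : S, Loc ((i : P5) : ℕ)} {t t' : RLoc}
    (h : AppR S l t) (hs : ∀ i, SigL (l i) (l' i)) (ht : SigR t t') : AppR S l' t' := by
  choose u hu h1 h2 using hs
  obtain ⟨w, hw, h3, h4⟩ := ht
  exact appR_of_nearR (nearR_iota (nearR_of_appR h h1 h3) hu hw) h2 h4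

/-! ### the base -/

theorem nearR_diag {S : Finset P5} (v : ∀ i : S, Pt ℚ_[((i : P5) : ℕ)]) (w : Pt ℝ)
    (hv : ∀ i, (v i).y = (v i).x ∧ (v i).z = ff (v i).x) (hw : w.y = w.x ∧ w.z = ff w.x) :
    NearR S v w := by
  intro U V hU hV
  have key : ∀ i : S, ∃ ε : ℝ, 0 < ε ∧ ∀ t : ℚ_[((i : P5) : ℕ)], ‖t - (v i).x‖ < ε → ff t ≠ 0 ∧
      ∀ u : Pt ℚ_[((i : P5) : ℕ)], u.x = t → u.y = t → u.z = ff t → u ∈ U i := by
    intro i
    obtain ⟨ε, hε, H⟩ := pt_nhds (hU i)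
    have hc : ContinuousAt (ff : ℚ_[((i : P5) : ℕ)] → _) (v i).x := continuous_ff.continuousAt
    obtain ⟨δ, hδ, Hδ⟩ := Metric.continuousAt_iff.1 hc (min ε ‖ff (v i).x‖)
      (lt_min hε (norm_pos_iff.2 (v i).hfx))
    refine ⟨min ε δ, lt_min hε hδ, fun t ht => ?_⟩
    have h1 := Hδ (x := t) (by rw [dist_eq_norm]; exact ht.trans_le (min_le_right _ _))
    rw [dist_eq_norm] at h1
    refine ⟨?_, fun u h2 h3 h4 => ?_⟩
    · have := neq_of_sub_lt (h1.trans_le (min_le_right _ _))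
      intro h0
      rw [h0, norm_zero] at this
      exact (v i).hfx (norm_eq_zero.1 this.symm)
    · apply H
      · rw [h2]; exact ht.trans_le (min_le_left _ _)
      · rw [h3, (hv i).1]; exact ht.trans_le (min_le_left _ _)
      · rw [h4, (hv i).2]; exact h1.trans_le (min_le_left _ _)
  choose ε hε hkey using key
  have keyR : ∃ δ : ℝ, 0 < δ ∧ ∀ t : ℝ, |t - w.x| < δ → ff t ≠ 0 ∧
      ∀ u : Pt ℝ, u.x = t → u.y = t → u.z = ff t → u ∈ V := by
    have hcont : Continuous (fun t : ℝ => (t, t, ff t)) := by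
      have : Continuous (ff : ℝ → ℝ) := by unfold ff; fun_prop
      fun_prop
    have hV0 : V ∈ Filter.comap (Subtype.val : Pt ℝ → ℝ × ℝ × ℝ) (𝓝 w.1) := by
      rwa [show 𝓝 w = Filter.comap (Subtype.val : Pt ℝ → ℝ × ℝ × ℝ) (𝓝 w.1) from
        nhds_induced _ _] at hV
    obtain ⟨V', hV', hVV⟩ := Filter.mem_comap.1 hV0
    have e : w.1 = (fun t : ℝ => (t, t, ff t)) w.x := by
      change (w.x, w.y, w.z) = _
      rw [hw.1, hw.2]
    rw [e] at hV'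
    have h1 := hcont.continuousAt.eventually hV'
    have hc2 : Continuous (ff : ℝ → ℝ) := by unfold ff; fun_prop
    have h2 : ∀ᶠ t in 𝓝 w.x, ff t ≠ 0 := hc2.continuousAt.eventually_ne w.hfx
    obtain ⟨δ, hδ, h⟩ := Metric.eventually_nhds_iff.1 (h1.and h2)
    refine ⟨δ, hδ, fun t ht => ?_⟩
    have h3 := h (show dist t w.x < δ by rwa [Real.dist_eq])
    refine ⟨h3.2, fun u h4 h5 h6 => hVV ?_⟩
    have h7 := h3.1
    change (u.x, u.y, u.z) ∈ V'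
    rw [h4, h5, h6]
    exact h7
  obtain ⟨δ, hδ, hkeyR⟩ := keyR
  obtain ⟨t, ht, htR⟩ := weak_approx_real (fun i : S => ((i : P5) : ℕ)) (inj_P5 S)
    (fun i => (v i).x) w.x ε hε δ hδ
  obtain ⟨k1, k2⟩ := hkeyR _ htR
  have hf : ff t ≠ 0 := by
    intro h0
    apply k1
    have := map_ff embR t
    rw [h0, map_zero] at this
    exact this.symm
  refine ⟨⟨(t, t, ff t), by ring, hf⟩, fun i => ?_, ?_⟩
  · apply (hkey i _ (ht i)).2
    · rfl
    · rfl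
    · change emb _ (ff t) = _
      rw [map_ff]
  · apply k2
    · rfl
    · rfl
    · change embR (ff t) = _
      rw [map_ff]
      rfl

end KumWA
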