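import Pool.Agent.Helper9.KumWA.Iota

/-!
# The real place: definitions
-/

namespace KumWA

/-- close to zero in the group of real points -/
def Far {d : ℝ} (R : ℝ) (P : E d) : Prop := P = 0 ∨ R ≤ |xc P|

/-- the identity component of the group of real points -/
def Comp {d : ℝ} (P : E d) : Prop := P = 0 ∨ (-(d / 2) < xc P ∧ -(2 * d) < xc P)

theorem Far.mono {d : ℝ} {R R' : ℝ} (h : R ≤ R') {P : E d} (hP : Far R' P) : Far R P :=
  hP.imp id (fun h' => h.trans h')

theorem Far.neg {d : ℝ} {R : ℝ} {P : E d} (hP : Far R P) : Far R (-P) := by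
  rcases hP with rfl | h
  · left
    exact WeierstrassCurve.Affine.Point.neg_zero
  · right; rwa [xc_neg]

end KumWA
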