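import Pool.Agent.Helper10.K3R.Defs
import Pool.Agent.Helper10.K3.GlobQ
import Pool.Agent.Helper98.K3R.RA
import Pool.Agent.Helper83.K3R.RB
import Pool.Agent.Helper11.K3R.RC
import Pool.Agent.Helper11.K3R.RF
import Pool.Agent.Helper41.K3R.RD
import Pool.Agent.Helper41.K3R.RE
import Pool.Agent.Helper57.K3R.RG
import Pool.Agent.Helper57.K3R.RH

/-!
# The modules on the real place, collected
-/

namespace KumWA

open Classical Topology

/-- every point has small nonzero multiples -/
theorem inf_small {d : ℝ} (hd : d ≠ 0) (P : E d) (R : ℝ) : ∃ k : ℕ, k ≠ 0 ∧ Far R (k • P) :=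
  inf_small_of far_add far_of_close hd P R

end KumWA
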