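import Pool.Agent.Helper10.K3R.AppR

/-!
# Weak approximation at the real place and all primes `5 mod 8`
-/

namespace KumWA

open Classical Topology

/-! ### small points -/

theorem far_comp {d : ℝ} : ∃ R : ℝ, ∀ P : E d, Far R P → Comp P := by
  refine ⟨1 + 8 * |d|, fun P hP => ?_⟩
  rcases hP with rfl | hP
  · exact Or.inl rfl
  right
  have h0 := abs_nonneg d
  have h1 := neg_abs_le d
  have h2 := le_abs_self d
  -- `xc P` is positive
  have hpos : 0 < xc P := by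
    by_contra hcon
    push Not at hcon
    rw [abs_of_nonpos hcon] at hP
    have h3 := curve_eq P
    have h4 : 0 ≤ yc P ^ 2 := sq_nonneg _
    set x := -xc P with hx
    have hxx : xc P = -x := by rw [hx]; ring
    rw [hxx] at h3
    have h5 : 0 < x := by linarith
    have h6 : yc P ^ 2 = -(x * (x ^ 2 - 4 * d * x + 2 * d ^ 2)) := by linear_combination h3
    have h7 : 0 < x ^ 2 - 4 * d * x + 2 * d ^ 2 := by nlinarith
    nlinarith [mul_pos h5 h7]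
  rw [abs_of_pos hpos] at hP
  constructor <;> linarith

theorem yc_ne_of_nontor {d : ℝ} {P : E d} (h : ∀ k : ℕ, k ≠ 0 → k • P ≠ 0) : yc P ≠ 0 := by
  intro hy
  apply h 2 two_ne_zero
  rw [two_nsmul]
  exact add_self_of_yc hy

theorem infinite_far {d : ℝ} (hd : d ≠ 0) (R : ℝ) : {P : E d | Far R P}.Infinite := by
  intro hf
  obtain ⟨B, hB⟩ := (hf.image (fun P => |xc P|)).bddAbove
  obtain ⟨P', h1, h2⟩ := inf_nontor hd 0 (max R (B + 1))
  rw [sub_zero] at h2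
  have h3 : P' ≠ 0 := by
    have := h1 1 one_ne_zero
    rwa [one_smul] at this
  have h4 := hB ⟨P', h2.mono (le_max_left _ _), rfl⟩
  have h5 := (h2.mono (le_max_right _ _)).resolve_left h3
  linarith [h4]

theorem exists_near_avoid_real {d : ℝ} (hd : d ≠ 0) {B : Set (E d)} (hB : B.Finite) (P : E d)
    (R : ℝ) : ∃ P' : E d, P' ∉ B ∧ Far R (P' - P) := by
  have h1 : ((fun η => P + η) '' {η : E d | Far R η}).Infinite :=
    (infinite_far hd R).image (add_right_injective P).injOn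
  obtain ⟨P', ⟨η, hη, rfl⟩, h2⟩ := (h1.diff hB).nonempty
  refine ⟨P + η, h2, ?_⟩
  rw [add_sub_cancel_left]
  exact hη

theorem exists_rep_gen {K : Type*} [Field K] [CharZero K] (w : Pt K) :
    ∃ (d : K) (P Q : E d), Rep w d P Q := by
  have he : ff w.x ≠ 0 := w.hfx
  set e := ff w.x with hedef
  have hAeq : (e ^ 2) ^ 2 = (e * w.x) ^ 3 + 4 * e * (e * w.x) ^ 2 + 2 * e ^ 2 * (e * w.x) := by
    have : e = w.x ^ 3 + 4 * w.x ^ 2 + 2 * w.x := rfl
    linear_combination e ^ 3 * this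
  have hBeq : (e * w.z) ^ 2 = (e * w.y) ^ 3 + 4 * e * (e * w.y) ^ 2 + 2 * e ^ 2 * (e * w.y) := by
    have h1 := w.eqn
    have : ff w.y = w.y ^ 3 + 4 * w.y ^ 2 + 2 * w.y := rfl
    rw [mul_pow, h1, ← hedef, this]; ring
  refine ⟨e, mkP he (e * w.x) (e ^ 2) hAeq, mkP he (e * w.y) (e * w.z) hBeq, he, mkP_ne _ _ _ _,
    mkP_ne _ _ _ _, ?_, ?_, ?_⟩
  · rw [xc_mkP]; ring
  · rw [xc_mkP]; ring
  · rw [yc_mkP, yc_mkP]; ring

theorem SigR.symm {t t' : RLoc} (h : SigR t t') : SigR t' t := by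
  obtain ⟨u, hu, h1, h2⟩ := h
  refine ⟨iota u hu, IOK_iota u hu, h2, ?_⟩
  rw [iota_iota]
  exact h1

/-- data exchanged by the involution with something are dense -/
theorem sigR_dense (t : RLoc) (R : ℝ) : ∃ t₀ t', SigR t₀ t' ∧ RNear R t' t := by
  obtain ⟨d, hd0, Q, S⟩ := t
  obtain ⟨Q', hQ', hfQ⟩ := exists_near_avoid_real hd0 (finite_yc hd0) Q R
  rw [Set.mem_ofPred_eq, not_or] at hQ'
  have hx : xc Q' / d ≠ 0 := div_ne_zero (xc_ne_of_yc hQ'.2) hd0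
  obtain ⟨S', hS', hfS⟩ := exists_near_avoid_real hd0
    ((finite_yc hd0).union (finite_IOK hd0 hx)) S R
  simp only [Set.mem_union, Set.mem_ofPred_eq, not_or, not_and] at hS'
  obtain ⟨⟨hS0, hyS⟩, hI⟩ := hS'
  have hI' := hI hS0
  have hrep := rep_mkPt hd0 hQ'.2 hyS
  have hIOK : IOK (mkPt hd0 Q' S' hQ'.2 hyS) := hI'
  obtain ⟨d₀, P₀, Q₀, hr⟩ := exists_rep_gen (iota (mkPt hd0 Q' S' hQ'.2 hyS) hIOK)
  refine ⟨⟨d₀, hr.1, P₀, Q₀⟩, ⟨d, hd0, Q', S'⟩, ?_, ⟨Q', S', rfl, hfQ, hfS⟩⟩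
  apply SigR.symm
  exact ⟨_, hIOK, hrep, hr⟩

/-! ### open subgroups -/

/-- the intersection of all open subgroups -/
def InG {d : ℝ} (ξ : E d) : Prop :=
  ∀ S : AddSubgroup (E d), (∃ R : ℝ, ∀ P : E d, Far R P → P ∈ S) → ξ ∈ S

theorem InG.add {d : ℝ} {ξ η : E d} (h : InG ξ) (h' : InG η) : InG (ξ + η) :=
  fun S hS => S.add_mem (h S hS) (h' S hS)

theorem InG.sub {d : ℝ} {ξ η : E d} (h : InG ξ) (h' : InG η) : InG (ξ - η) :=
  fun S hS => S.sub_mem (h S hS) (h' S hS)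

theorem InG.zsmul {d : ℝ} {ξ : E d} (h : InG ξ) (k : ℤ) : InG (k • ξ) :=
  fun S hS => S.zsmul_mem (h S hS) k

theorem Comp.inG {d : ℝ} (hd : d ≠ 0) {P : E d} (h : Comp P) : InG P := by
  rintro S ⟨R, hR⟩
  exact inf_conn hd S hR h

theorem inG_two {d : ℝ} (hd : d ≠ 0) (P : E d) : InG ((2 : ℤ) • P) := by
  rw [two_zsmul]
  exact (comp_double hd P).inG hd

theorem inG_sub {d : ℝ} (hd : d ≠ 0) {P Q : E d} (hP : ¬ Comp P) (hQ : ¬ Comp Q) :
    InG (P - Q) := by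
  rintro S ⟨R, hR⟩
  exact inf_conn' hd S hR hP hQ

/-- the multiples of a point of infinite order are dense in `InG` -/
theorem orb_dense {d : ℝ} (hd : d ≠ 0) {P : E d} (hP : ∀ k : ℕ, k ≠ 0 → k • P ≠ 0) {N : ℤ}
    (hN : N ≠ 0) {ξ : E d} (hξ : InG ξ) (R : ℝ) : ∃ k : ℤ, Far R (ξ - (k * N) • P) := by
  let CS : AddSubgroup (E d) :=
    { carrier := {ξ | ∀ R : ℝ, ∃ k : ℤ, Far R (ξ - (k * N) • P)}
      add_mem' := by
        intro a b ha hb R
        obtain ⟨R', -, hR'⟩ := far_add' d R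
        obtain ⟨k, hk⟩ := ha R'
        obtain ⟨l, hl⟩ := hb R'
        refine ⟨k + l, ?_⟩
        have : a + b - ((k + l) * N) • P = (a - (k * N) • P) + (b - (l * N) • P) := by
          rw [add_mul, add_zsmul]; abel
        rw [this]
        exact hR' _ _ hk hl
      zero_mem' := by
        intro R
        refine ⟨0, ?_⟩
        rw [zero_mul, zero_zsmul, sub_zero]
        exact far_zero' R
      neg_mem' := by
        intro a ha R
        obtain ⟨k, hk⟩ := ha R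
        refine ⟨-k, ?_⟩
        have : -a - (-k * N) • P = -(a - (k * N) • P) := by
          rw [neg_mul, neg_zsmul]; abel
        rw [this]
        exact hk.neg }
  have hmem : ξ ∈ CS := by
    apply hξ
    obtain ⟨R₀, hR₀⟩ := inf_gen hd
    refine ⟨R₀, fun η hη R => ?_⟩
    obtain ⟨M, hM⟩ := hR₀ R
    obtain ⟨k, hk, hkf⟩ := inf_small hd (N • P) M
    have hne : k • (N • P) ≠ 0 := by
      intro h0
      have h1 : (k * N.natAbs) • P = 0 := by
        rcases Int.natAbs_eq N with h | h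
        · rw [h, natCast_zsmul] at h0
          rw [mul_smul]
          exact h0
        · rw [h, neg_zsmul, natCast_zsmul, smul_neg, neg_eq_zero] at h0
          rw [mul_smul]
          exact h0
      exact hP _ (Nat.mul_ne_zero hk (Int.natAbs_ne_zero.2 hN)) h1
    obtain ⟨j, hj⟩ := hM _ hne hkf η hη
    refine ⟨j * k, ?_⟩
    have : (j * k * N) • P = j • (k • (N • P)) := by
      rw [mul_zsmul, mul_zsmul, natCast_zsmul]
    rw [this]
    exact hj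
  exact hmem R

/-! ### the predicate `Hb` -/

/-- all base systems are approximable together with the real datum `t` -/
def Hb (S : Finset P5) (t : RLoc) : Prop :=
  ∀ l : ∀ i : S, Loc ((i : P5) : ℕ), (∀ i, (l i).R = 0) → AppR S l t

variable {S : Finset P5}

theorem Hb.cl {t : RLoc} (h : ∀ R : ℝ, ∃ t', Hb S t' ∧ RNear R t' t) : Hb S t := by
  intro l hl
  apply AppR.closed
  intro n R
  obtain ⟨t', h1, h2⟩ := h R
  exact ⟨l, t', h1 l hl, fun i => LNear.refl n _, h2⟩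

theorem Hb.sh1 {t : RLoc} (h : Hb S t) (a : ℤ) : Hb S ⟨t.d, t.hd, t.P + a • t.Q, t.Q⟩ := by
  intro l hl
  have h1 := (h l hl).lin 1 a 0 1
  have e1 : (fun i => (l i).lin 1 a 0 1) = l := by
    funext i
    have h2 := hl i
    rcases hli : l i with ⟨d, hd, Q, R⟩
    rw [hli] at h2
    change R = 0 at h2
    subst h2
    change (⟨d, hd, (1 : ℤ) • Q + a • 0, (0 : ℤ) • Q + (1 : ℤ) • 0⟩ : Loc _) = _
    rw [one_zsmul, smul_zero, add_zero, zero_zsmul, smul_zero, add_zero]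
  have e2 : t.lin 1 a 0 1 = ⟨t.d, t.hd, t.P + a • t.Q, t.Q⟩ := by
    change (⟨t.d, t.hd, (1 : ℤ) • t.P + a • t.Q, (0 : ℤ) • t.P + (1 : ℤ) • t.Q⟩ : RLoc) = _
    rw [one_zsmul, zero_zsmul, one_zsmul, zero_add]
  rwa [e1, e2] at h1

/-- an integer which kills all groups up to level `n` -/
theorem exists_kill (S : Finset P5) (n : ℕ) : ∃ N : ℤ, N ≠ 0 ∧ (2 : ℤ) ∣ N ∧
    ∀ (i : S) (d : ℚ_[((i : P5) : ℕ)]) (_ : nd d) (P : E d) (k : ℤ), fil n ((k * N) • P) := by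
  refine ⟨2 * ∏ i ∈ S, ((((i : ℕ) + 1) * (i : ℕ) ^ n : ℕ) : ℤ), ?_, Dvd.intro _ rfl, ?_⟩
  · refine mul_ne_zero two_ne_zero (Finset.prod_ne_zero_iff.2 fun i _ => ?_)
    have := i.2.1.pos
    exact_mod_cast Nat.mul_ne_zero (by omega) (pow_ne_zero _ (by omega))
  · intro i d hd P k
    rw [← Finset.prod_erase_mul S _ i.2]
    have e : k * (2 * ((∏ x ∈ S.erase (i : P5), ((((x : ℕ) + 1) * (x : ℕ) ^ n : ℕ) : ℤ)) *
        (((((i : P5) : ℕ) + 1) * ((i : P5) : ℕ) ^ n : ℕ) : ℤ))) =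
      (k * 2 * (∏ x ∈ S.erase (i : P5), ((((x : ℕ) + 1) * (x : ℕ) ^ n : ℕ) : ℤ))) *
        (((((i : P5) : ℕ) + 1) * ((i : P5) : ℕ) ^ n : ℕ) : ℤ) := by ring
    rw [e, mul_zsmul, natCast_zsmul]
    exact fil_zsmul (nd_okl hd n) (loc_exp (i : P5).2.2 hd P n) _

/-- moving the second real point by the identity component -/
theorem Hb.add {t : RLoc} (h : Hb S t) (hP : ∀ k : ℕ, k ≠ 0 → k • t.P ≠ 0) {ξ : E t.d}
    (hξ : InG ξ) : Hb S ⟨t.d, t.hd, t.P, t.Q + ξ⟩ := by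
  intro l hl
  apply AppR.closed
  intro n R
  obtain ⟨N, hN, -, hk⟩ := exists_kill S n
  obtain ⟨k, hkf⟩ := orb_dense t.hd hP hN hξ R
  refine ⟨_, _, (h l hl).lin 1 0 (k * N) 1, fun i => ?_, ?_⟩
  · have h2 := hl i
    rcases hli : l i with ⟨d, hd, Q, R'⟩
    rw [hli] at h2
    change R' = 0 at h2
    subst h2
    refine ⟨Q, (k * N) • Q, ?_, ?_, ?_⟩
    · change (⟨d, hd, (1 : ℤ) • Q + (0 : ℤ) • (0 : E d), (k * N) • Q + (1 : ℤ) • (0 : E d)⟩ :
        Loc _) = _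
      rw [one_zsmul, smul_zero, add_zero, smul_zero, add_zero]
    · change fil n (Q - Q)
      rw [sub_self]; exact fil_zero' n
    · change fil n ((k * N) • Q - 0)
      rw [sub_zero]
      exact hk i d hd Q k
  · refine ⟨t.P, t.Q + (k * N) • t.P, ?_, ?_, ?_⟩
    · change (⟨t.d, t.hd, (1 : ℤ) • t.P + (0 : ℤ) • t.Q, (k * N) • t.P + (1 : ℤ) • t.Q⟩ : RLoc) = _
      rw [one_zsmul, zero_zsmul, add_zero, one_zsmul, add_comm]
    · change Far R (t.P - t.P)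
      rw [sub_self]; exact far_zero' R
    · change Far R (t.Q + (k * N) • t.P - (t.Q + ξ))
      have e : t.Q + (k * N) • t.P - (t.Q + ξ) = -(ξ - (k * N) • t.P) := by abel
      rw [e]
      exact hkf.neg

/-- the base of the base -/
theorem hb_zero (d : ℝ) (hd : d ≠ 0) (P : E d) : Hb S ⟨d, hd, P, 0⟩ := by
  apply Hb.cl
  intro R
  obtain ⟨P', hnt, hP'⟩ := inf_nontor hd P R
  have hy := yc_ne_of_nontor hnt
  refine ⟨⟨d, hd, P', 0⟩, ?_, P', 0, rfl, hP', ?_⟩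
  · intro l hl
    apply AppR.closed
    intro n R'
    have h1 : ∀ i : S, ∃ Q' : E (l i).d, yc Q' ≠ 0 ∧ fil n (Q' - (l i).Q) := by
      intro i
      obtain ⟨Q', h2, h3⟩ := exists_near_avoid (i : P5).2.2 (l i).hd _
        (finite_yc (nd_ne (l i).hd)) (l i).Q n
      rw [Set.mem_ofPred_eq, not_or] at h2
      exact ⟨Q', h2.2, h3⟩
    choose Q' hyQ hQ using h1
    have h2 : AppR S (fun i => ⟨(l i).d, (l i).hd, Q' i, Q' i⟩) ⟨d, hd, P', P'⟩ := by
      apply appR_of_nearR (v := fun i => mkPt (nd_ne (l i).hd) (Q' i) (Q' i) (hyQ i) (hyQ i))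
        (w := mkPt hd P' P' hy hy)
      · apply nearR_diag
        · intro i
          refine ⟨rfl, ?_⟩
          have hd := nd_ne (l i).hd
          change yc (Q' i) * yc (Q' i) / (l i).d ^ 3 = ff (xc (Q' i) / (l i).d)
          rw [← sq, yc_sq_ff hd, mul_div_cancel_left₀ _ (pow_ne_zero 3 hd)]
        · refine ⟨rfl, ?_⟩
          change yc P' * yc P' / d ^ 3 = ff (xc P' / d)
          rw [← sq, yc_sq_ff hd, mul_div_cancel_left₀ _ (pow_ne_zero 3 hd)]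
      · intro i
        exact rep_mkPt _ _ _
      · exact rep_mkPt _ _ _
    refine ⟨_, _, h2.lin 1 0 1 (-1), fun i => ?_, ?_⟩
    · refine ⟨Q' i, 0, ?_, hQ i, ?_⟩
      · change (⟨(l i).d, (l i).hd, (1 : ℤ) • Q' i + (0 : ℤ) • Q' i,
          (1 : ℤ) • Q' i + (-1 : ℤ) • Q' i⟩ : Loc ((i : P5) : ℕ)) = _
        have e1 : (1 : ℤ) • Q' i + (0 : ℤ) • Q' i = Q' i := by simp
        have e2 : (1 : ℤ) • Q' i + (-1 : ℤ) • Q' i = 0 := by simp
        rw [e1, e2]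
      · rw [hl i, sub_zero]; exact fil_zero' n
    · refine ⟨P', 0, ?_, ?_, ?_⟩
      · change (⟨d, hd, (1 : ℤ) • P' + (0 : ℤ) • P', (1 : ℤ) • P' + (-1 : ℤ) • P'⟩ : RLoc) = _
        have e1 : (1 : ℤ) • P' + (0 : ℤ) • P' = P' := by simp
        have e2 : (1 : ℤ) • P' + (-1 : ℤ) • P' = 0 := by simp
        rw [e1, e2]
      · change Far R' (P' - P')
        rw [sub_self]; exact far_zero' R'
      · change Far R' ((0 : E d) - 0)
        rw [sub_self]; exact far_zero' R'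
  · change Far R ((0 : E d) - 0)
    rw [sub_self]; exact far_zero' R

theorem hb_inG (t : RLoc) (h : InG t.Q) : Hb S t := by
  obtain ⟨d, hd, P, Q⟩ := t
  apply Hb.cl
  intro R
  obtain ⟨P', hnt, hP'⟩ := inf_nontor hd P R
  refine ⟨⟨d, hd, P', Q⟩, ?_, P', Q, rfl, hP', ?_⟩
  · have h1 := (hb_zero (S := S) d hd P').add hnt h
    change Hb S ⟨d, hd, P', 0 + Q⟩ at h1
    rwa [zero_add] at h1
  · rw [sub_self]; exact far_zero' R

/-- the involution acts on `Hb` -/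
theorem Hb.sig {t t' : RLoc} (ht : InG t.Q) (hs : SigR t t') : Hb S t' := by
  intro l hl
  apply AppR.closed
  intro n R
  have key : ∀ i : S, ∃ (l₁ : Loc ((i : P5) : ℕ)) (m : ℕ), l₁.R = 0 ∧
      (∀ a : ℤ, a ≠ 0 → a • l₁.Q ≠ 0) ∧
      ∀ R₀ : E l₁.d, R₀ ≠ 0 → fil m R₀ →
          ∃ l', SigL ⟨l₁.d, l₁.hd, l₁.Q, R₀⟩ l' ∧ LNear n l' (l i) := by
    intro i
    have h0 := hl i
    rcases hli : l i with ⟨d, hd, Q, R⟩
    rw [hli] at h0
    change R = 0 at h0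
    subst h0
    obtain ⟨d₀, hd₀, Q₀, m, h1, h2⟩ := sig_base (i : P5).2.2 hd Q n
    refine ⟨⟨d₀, hd₀, Q₀, 0⟩, m, rfl, ?_, h2⟩
    intro a ha h3
    apply h1 a.natAbs (Int.natAbs_ne_zero.2 ha)
    change a • Q₀ = 0 at h3
    rcases Int.natAbs_eq a with h | h
    · rw [h, natCast_zsmul] at h3
      exact h3
    · rw [h, neg_zsmul, natCast_zsmul, neg_eq_zero] at h3
      exact h3
  choose l₁ m hR hnt hkey using key
  obtain ⟨γ, hγ, ⟨γ', hγ2⟩, hk⟩ := exists_kill S (Finset.univ.sup m)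
  have h1 : ∀ i, ∃ l', SigL ⟨(l₁ i).d, (l₁ i).hd, (l₁ i).Q, γ • (l₁ i).Q⟩ l' ∧
      LNear n l' (l i) := by
    intro i
    apply hkey i _ (hnt i γ hγ)
    have h2 := hk i (l₁ i).d (l₁ i).hd (l₁ i).Q 1
    rw [one_mul] at h2
    exact fil_mono (Finset.le_sup (Finset.mem_univ i)) h2
  choose l' hs' hn using h1
  have h2 : InG (t.Q - γ • t.P) := by
    apply ht.sub
    have := (inG_two t.hd t.P).zsmul γ'
    rwa [← mul_zsmul, mul_comm, ← hγ2] at this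
  have h3 := hb_inG (S := S) ⟨t.d, t.hd, t.P, t.Q - γ • t.P⟩ h2 l₁ hR
  have h4 := h3.lin 1 0 γ 1
  have h5 : AppR S (fun i => ⟨(l₁ i).d, (l₁ i).hd, (l₁ i).Q, γ • (l₁ i).Q⟩) t := by
    have e1 : (fun i => (l₁ i).lin 1 0 γ 1) =
        fun i => ⟨(l₁ i).d, (l₁ i).hd, (l₁ i).Q, γ • (l₁ i).Q⟩ := by
      funext i
      have h2 := hR i
      rcases hli : l₁ i with ⟨d, hd, Q, R⟩
      rw [hli] at h2
      change R = 0 at h2
      subst h2
      change (⟨d, hd, (1 : ℤ) • Q + (0 : ℤ) • (0 : E d), γ • Q + (1 : ℤ) • (0 : E d)⟩ : Loc _) = _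
      rw [one_zsmul, smul_zero, add_zero, smul_zero, add_zero]
    have e2 : (⟨t.d, t.hd, t.P, t.Q - γ • t.P⟩ : RLoc).lin 1 0 γ 1 = t := by
      change (⟨t.d, t.hd, (1 : ℤ) • t.P + (0 : ℤ) • (t.Q - γ • t.P),
        γ • t.P + (1 : ℤ) • (t.Q - γ • t.P)⟩ : RLoc) = t
      rw [one_zsmul, zero_zsmul, add_zero, one_zsmul, add_sub_cancel]
    rwa [e1, e2] at h4
  exact ⟨l', t', h5.sig hs' hs, hn, RNear.refl R t'⟩

/-- the involution is open on real data -/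
theorem sigR_open {t t' : RLoc} (h : SigR t t') (R : ℝ) : ∃ R' : ℝ, ∀ t'', RNear R' t'' t' →
    ∃ t₀, RNear R t₀ t ∧ SigR t₀ t'' := by
  obtain ⟨u, hu, h1, h2⟩ := h
  -- neighbourhood of `u`
  have hU := loc_f2_real h1 R
  have h3 := iota_nhds_real (IOK_iota u hu) (U := {w : Pt ℝ | ∃ c : ℝ, c ≠ 0 ∧ ff w.x = t.d * c ^ 2 ∧
      ∀ A B : E t.d, A ≠ 0 → B ≠ 0 → xc A = t.d * w.x → yc A = t.d ^ 2 * c → xc B = t.d * w.y →
        yc B = t.d * w.z / c → Far R (A - t.P) ∧ Far R (B - t.Q)}) (by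
    rw [iota_iota]; exact hU)
  obtain ⟨R', hR0, hR'⟩ := loc_f1_real h2 h3
  refine ⟨R', ?_⟩
  rintro t'' ⟨P', Q', rfl, hP', hQ'⟩
  obtain ⟨k1, k2, k3, k4, k5⟩ := hR' P' Q' hP' hQ'
  obtain ⟨hI, c, hc, hce, H⟩ := k5 _ (rep_mkPt t'.hd k3 k4)
  set w := iota (mkPt t'.hd P' Q' k3 k4) hI with hw
  have hd := t.hd
  have hAeq : (t.d ^ 2 * c) ^ 2 = (t.d * w.x) ^ 3 + 4 * t.d * (t.d * w.x) ^ 2 +
      2 * t.d ^ 2 * (t.d * w.x) := by
    have : ff w.x = w.x ^ 3 + 4 * w.x ^ 2 + 2 * w.x := rfl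
    linear_combination (-t.d ^ 3) * hce + t.d ^ 3 * this
  have hBeq : (t.d * w.z / c) ^ 2 = (t.d * w.y) ^ 3 + 4 * t.d * (t.d * w.y) ^ 2 +
      2 * t.d ^ 2 * (t.d * w.y) := by
    have h4 := w.eqn
    have h5 : ff w.y = w.y ^ 3 + 4 * w.y ^ 2 + 2 * w.y := rfl
    rw [hce] at h4
    rw [div_pow, mul_pow, h4, div_eq_iff (pow_ne_zero 2 hc), h5]
    ring
  obtain ⟨h6, h7⟩ := H (mkP hd _ _ hAeq) (mkP hd _ _ hBeq) (mkP_ne hd _ _ hAeq)
    (mkP_ne hd _ _ hBeq) (xc_mkP hd _ _ hAeq) (yc_mkP hd _ _ hAeq) (xc_mkP hd _ _ hBeq)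
    (yc_mkP hd _ _ hBeq)
  refine ⟨⟨t.d, hd, mkP hd _ _ hAeq, mkP hd _ _ hBeq⟩, ⟨_, _, rfl, h6, h7⟩, ?_⟩
  apply SigR.symm
  refine ⟨mkPt t'.hd P' Q' k3 k4, hI, rep_mkPt t'.hd k3 k4,
    ⟨hd, mkP_ne hd _ _ hAeq, mkP_ne hd _ _ hBeq, ?_, ?_, ?_⟩⟩
  · rw [xc_mkP]; ring
  · rw [xc_mkP]; ring
  · rw [yc_mkP, yc_mkP]
    field_simp
    rfl

/-- all real data -/
theorem hb_all (t : RLoc) : Hb S t := by
  obtain ⟨d, hd, P, Q⟩ := t
  by_cases hQ : Comp Q
  · exact hb_inG _ (hQ.inG hd)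
  -- if some point of the other component is in `InG`
  by_cases hex : ∃ ρ : E d, ¬ Comp ρ ∧ InG ρ
  · obtain ⟨ρ, h1, h2⟩ := hex
    apply hb_inG
    have := (inG_sub hd hQ h1).add h2
    rwa [sub_add_cancel] at this
  push Not at hex
  -- the seed
  obtain ⟨u, hu, d₀, P₀, R₀, P', R', hr1, hc, hr2, hnc⟩ := seed hd
  have hsig : SigR ⟨d₀, hr1.1, P₀, R₀⟩ ⟨d, hd, P', R'⟩ := ⟨u, hu, hr1, hr2⟩
  obtain ⟨R₁, hR₁⟩ := far_comp (d := d₀)
  -- a seed with a first point of infinite order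
  obtain ⟨P₁, hP₁, hseed⟩ : ∃ P₁ : E d, (∀ k : ℕ, k ≠ 0 → k • P₁ ≠ 0) ∧ Hb S ⟨d, hd, P₁, R'⟩ := by
    obtain ⟨R₂, hR₂⟩ := sigR_open hsig R₁
    obtain ⟨P₁, h1, h2⟩ := inf_nontor hd P' R₂
    refine ⟨P₁, h1, ?_⟩
    obtain ⟨t₀, ⟨A, B, rfl, hA, hB⟩, h3⟩ := hR₂ ⟨d, hd, P₁, R'⟩ ⟨P₁, R', rfl, h2, by
      rw [sub_self]; exact far_zero' _⟩
    refine Hb.sig ?_ h3
    change InG B
    have h4 : InG (B - R₀) := (hR₁ _ hB).inG hr1.1
    have h5 := h4.add (hc.inG hr1.1)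
    rwa [sub_add_cancel] at h5
  -- all second points in the other component
  have key : ∀ (A : E d), (∀ k : ℕ, k ≠ 0 → k • A ≠ 0) → ∀ B B' : E d, ¬ Comp B → ¬ Comp B' →
      Hb S ⟨d, hd, A, B⟩ → Hb S ⟨d, hd, A, B'⟩ := by
    intro A hA B B' hB hB' h
    have h1 := h.add hA (inG_sub hd hB' hB)
    change Hb S ⟨d, hd, A, B + (B' - B)⟩ at h1
    rwa [add_sub_cancel] at h1
  -- first points which differ by an element of the other component
  have step : ∀ (A A' B B' : E d), (∀ k : ℕ, k ≠ 0 → k • A ≠ 0) → (∀ k : ℕ, k ≠ 0 → k • A' ≠ 0) →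
      ¬ Comp (A' - A) → ¬ Comp B → ¬ Comp B' → Hb S ⟨d, hd, A, B⟩ → Hb S ⟨d, hd, A', B'⟩ := by
    intro A A' B B' hA hA' hAA hB hB' h
    have h1 := (key A hA B (A' - A) hB hAA h).sh1 1
    change Hb S ⟨d, hd, A + (1 : ℤ) • (A' - A), A' - A⟩ at h1
    rw [one_zsmul, add_sub_cancel] at h1
    exact key A' hA' _ _ hAA hB' h1
  apply Hb.cl
  intro R
  obtain ⟨P₂, hP₂, hfar⟩ := inf_nontor hd P R
  refine ⟨⟨d, hd, P₂, Q⟩, ?_, P₂, Q, rfl, hfar, by rw [sub_self]; exact far_zero' _⟩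
  by_cases h1 : Comp (P₂ - P₁)
  · -- two steps
    obtain ⟨R₃, hR₃⟩ := far_comp (d := d)
    obtain ⟨P₃, hP₃, hf⟩ := inf_nontor hd (P₁ + R') R₃
    have h2 : InG (P₃ - (P₁ + R')) := (hR₃ _ hf).inG hd
    have h3 : ¬ Comp (P₃ - P₁) := by
      intro h4
      apply hex R' hnc
      have h5 := (h4.inG hd).sub h2
      have e : P₃ - P₁ - (P₃ - (P₁ + R')) = R' := by abel
      rwa [e] at h5
    have h4 : ¬ Comp (P₂ - P₃) := by
      intro h5
      apply hex (P₃ - P₁) h3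
      have h6 := (h1.inG hd).sub (h5.inG hd)
      have e : P₂ - P₁ - (P₂ - P₃) = P₃ - P₁ := by abel
      rwa [e] at h6
    have h5 := step P₁ P₃ R' Q hP₁ hP₃ h3 hnc hQ hseed
    exact step P₃ P₂ Q Q hP₃ hP₂ h4 hQ hQ h5
  · exact step P₁ P₂ R' Q hP₁ hP₂ h1 hnc hQ hseed

/-! ### the predicate on systems -/

/-- the system is approximable together with all real data -/
def FSR (S : Finset P5) (s : Abs.Sys plq) : Prop :=
  ∀ t : RLoc, AppR S (fun i => toL ((i : P5) : ℕ) (s i)) t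

theorem RLoc.lin_inv (t : RLoc) {α β γ δ α' β' γ' δ' : ℤ} (h1 : α * α' + β * γ' = 1)
    (h2 : α * β' + β * δ' = 0) (h3 : γ * α' + δ * γ' = 0) (h4 : γ * β' + δ * δ' = 1) :
    (t.lin α' β' γ' δ').lin α β γ δ = t := by
  obtain ⟨d, hd, P, Q⟩ := t
  change (⟨d, hd, α • (α' • P + β' • Q) + β • (γ' • P + δ' • Q),
    γ • (α' • P + β' • Q) + δ • (γ' • P + δ' • Q)⟩ : RLoc) = ⟨d, hd, P, Q⟩
  have e1 : α • (α' • P + β' • Q) + β • (γ' • P + δ' • Q) =
      (α * α' + β * γ') • P + (α * β' + β * δ') • Q := by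
    rw [smul_add, smul_add, ← mul_smul, ← mul_smul, ← mul_smul, ← mul_smul, add_smul, add_smul]
    abel
  have e2 : γ • (α' • P + β' • Q) + δ • (γ' • P + δ' • Q) =
      (γ * α' + δ * γ') • P + (γ * β' + δ * δ') • Q := by
    rw [smul_add, smul_add, ← mul_smul, ← mul_smul, ← mul_smul, ← mul_smul, add_smul, add_smul]
    abel
  rw [e1, e2, h1, h2, h3, h4, one_smul, zero_smul, zero_smul, one_smul, add_zero, zero_add]

theorem FSR.lin {S : Finset P5} {s : Abs.Sys plq} (h : FSR S s) (α β γ δ : ℤ) {α' β' γ' δ' : ℤ}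
    (h1 : α * α' + β * γ' = 1)
    (h2 : α * β' + β * δ' = 0) (h3 : γ * α' + δ * γ' = 0) (h4 : γ * β' + δ * δ' = 1) (t : RLoc) :
    AppR S (fun i => (toL ((i : P5) : ℕ) (s i)).lin α β γ δ) t := by
  have h5 := (h (t.lin α' β' γ' δ')).lin α β γ δ
  rwa [t.lin_inv h1 h2 h3 h4] at h5

theorem FSR.stable (S : Finset P5) : Abs.Stable plq S (FSR S) where
  cl s h t := by
    apply AppR.closed
    intro n R
    obtain ⟨s', h1, h2⟩ := h n
    exact ⟨_, t, h1 t, fun i => near_iff.1 (h2 i i.2), RNear.refl R t⟩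
  sh1 s a h t := by
    have h1 := h.lin 1 a 0 1 (α' := 1) (β' := -a) (γ' := 0) (δ' := 1) (by ring) (by ring)
      (by ring) (by ring) t
    refine cast (congrArg (fun l => AppR S l t) (funext fun i => ?_)) h1
    have e1 : ∀ Q R : E (toL ((i : P5) : ℕ) (s i)).d, (1 : ℤ) • Q + a • R = Q + a • R := by
      intro Q R; rw [one_zsmul]
    have e2 : ∀ Q R : E (toL ((i : P5) : ℕ) (s i)).d, (0 : ℤ) • Q + (1 : ℤ) • R = R := by
      intro Q R; rw [zero_zsmul, one_zsmul, zero_add]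
    unfold Loc.lin
    rw [e1, e2]
    rfl
  sh2 s a h t := by
    have h1 := h.lin 1 0 a 1 (α' := 1) (β' := 0) (γ' := -a) (δ' := 1) (by ring) (by ring)
      (by ring) (by ring) t
    refine cast (congrArg (fun l => AppR S l t) (funext fun i => ?_)) h1
    have e1 : ∀ Q R : E (toL ((i : P5) : ℕ) (s i)).d, (1 : ℤ) • Q + (0 : ℤ) • R = Q := by
      intro Q R; rw [one_zsmul, zero_zsmul, add_zero]
    have e2 : ∀ Q R : E (toL ((i : P5) : ℕ) (s i)).d, a • Q + (1 : ℤ) • R = R + a • Q := by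
      intro Q R; rw [one_zsmul, add_comm]
    unfold Loc.lin
    rw [e1, e2]
    rfl
  tr1 s j h t := by
    rcases zmod2_cases j with rfl | rfl
    · refine cast (congrArg (fun l => AppR S l t) (funext fun i => ?_)) (h t)
      exact (toL_tr1_zero _).symm
    · have h1 := (h ⟨t.d, t.hd, t.P + T t.hd, t.Q⟩).addT
      have e : (⟨t.d, t.hd, t.P + T t.hd + T t.hd, t.Q⟩ : RLoc) = t := by
        rw [add_assoc, T_add_T, add_zero]
      change AppR S _ ⟨t.d, t.hd, t.P + T t.hd + T t.hd, t.Q⟩ at h1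
      rw [e] at h1
      refine cast (congrArg (fun l => AppR S l t) (funext fun i => ?_)) h1
      exact (toL_tr1_one _).symm
  tr2 s j h t := by
    rcases zmod2_cases j with rfl | rfl
    · refine cast (congrArg (fun l => AppR S l t) (funext fun i => ?_)) (h t)
      exact (toL_tr2_zero _).symm
    · have h1 := (h ⟨t.d, t.hd, t.P, t.Q + T t.hd⟩).addT'
      have e : (⟨t.d, t.hd, t.P, t.Q + T t.hd + T t.hd⟩ : RLoc) = t := by
        rw [add_assoc, T_add_T, add_zero]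
      change AppR S _ ⟨t.d, t.hd, t.P, t.Q + T t.hd + T t.hd⟩ at h1
      rw [e] at h1
      refine cast (congrArg (fun l => AppR S l t) (funext fun i => ?_)) h1
      exact (toL_tr2_one _).symm
  un1 s ε h t := by
    have hε : (ε : ℤ) * ε = 1 := by
      rcases Int.units_eq_one_or ε with h | h <;> simp [h]
    have h1 := h.lin (ε : ℤ) 0 0 1 (α' := ε) (β' := 0) (γ' := 0) (δ' := 1) (by linear_combination hε)
      (by ring) (by ring) (by ring) t
    refine cast (congrArg (fun l => AppR S l t) (funext fun i => ?_)) h1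
    have e1 : ∀ Q R : E (toL ((i : P5) : ℕ) (s i)).d, (ε : ℤ) • Q + (0 : ℤ) • R = (ε : ℤ) • Q := by
      intro Q R; rw [zero_zsmul, add_zero]
    have e2 : ∀ Q R : E (toL ((i : P5) : ℕ) (s i)).d, (0 : ℤ) • Q + (1 : ℤ) • R = R := by
      intro Q R; rw [zero_zsmul, one_zsmul, zero_add]
    unfold Loc.lin
    rw [e1, e2]
    rfl
  un2 s ε h t := by
    have hε : (ε : ℤ) * ε = 1 := by
      rcases Int.units_eq_one_or ε with h | h <;> simp [h]
    have h1 := h.lin 1 0 0 (ε : ℤ) (α' := 1) (β' := 0) (γ' := 0) (δ' := ε) (by ring)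
      (by ring) (by ring) (by linear_combination hε) t
    refine cast (congrArg (fun l => AppR S l t) (funext fun i => ?_)) h1
    have e1 : ∀ Q R : E (toL ((i : P5) : ℕ) (s i)).d, (1 : ℤ) • Q + (0 : ℤ) • R = Q := by
      intro Q R; rw [one_zsmul, zero_zsmul, add_zero]
    have e2 : ∀ Q R : E (toL ((i : P5) : ℕ) (s i)).d, (0 : ℤ) • Q + (ε : ℤ) • R = (ε : ℤ) • R := by
      intro Q R; rw [zero_zsmul, zero_add]
    unfold Loc.lin
    rw [e1, e2]
    rfl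
  sig s s' h hs t := by
    apply AppR.closed
    intro n R
    obtain ⟨t₀, t', h1, h2⟩ := sigR_dense t R
    exact ⟨_, t', (h t₀).sig (fun i => hs i i.2) h1, fun i => LNear.refl n _, h2⟩
  base s h t := hb_all t _ (fun i => h i i.2)

theorem appR_all (S : Finset P5) (l : ∀ i : S, Loc ((i : P5) : ℕ)) (t : RLoc) : AppR S l t := by
  set s : Abs.Sys plq := fun p => if hp : p ∈ S then ofL (p : ℕ) (l ⟨p, hp⟩) else
    ⟨⟨(p : ℕ), Or.inl (by rw [Padic.norm_p])⟩, 0, 0⟩ with hs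
  have h1 : FSR S s := ind_all S _ (FSR.stable S) s
  refine cast (congrArg (fun l => AppR S l t) (funext fun i => ?_)) (h1 t)
  have e : s i = ofL ((i : P5) : ℕ) (l i) := by
    rw [hs]
    exact dif_pos i.2
  rw [e]
  rfl

/-- density at finitely many primes `5 mod 8` and the real place -/
theorem nearR_all (S : Finset P5) (v : ∀ i : S, Pt ℚ_[((i : P5) : ℕ)]) (w : Pt ℝ) :
    NearR S v w := by
  choose d P Q hd hrep using fun i => exists_rep (v i)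
  obtain ⟨d', P', Q', hr⟩ := exists_rep_gen w
  exact nearR_of_appR (appR_all S (fun i => ⟨d i, hd i, P i, Q i⟩) ⟨d', hr.1, P', Q'⟩) hrep hr

/-- density in the product over the real place and all primes `5 mod 8` -/
theorem dense_real_P5 :
    DenseRange (fun u : Pt ℚ => ((Pt.map (Rat.castHom ℝ) u,
      fun p : {p : Nat.Primes // (p : ℕ) % 8 = 5} =>
        Pt.map (Rat.castHom ℚ_[((p : Nat.Primes) : ℕ)]) u) :
      Pt ℝ × ∀ p : {p : Nat.Primes // (p : ℕ) % 8 = 5}, Pt ℚ_[((p : Nat.Primes) : ℕ)])) := by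
  rintro ⟨w, v⟩
  rw [mem_closure_iff_nhds]
  intro N hN
  rw [nhds_prod_eq, Filter.mem_prod_iff] at hN
  obtain ⟨V, hV, N', hN', hVN⟩ := hN
  rw [nhds_pi, Filter.mem_pi] at hN'
  obtain ⟨I, hI, U, hU, hUN⟩ := hN'
  obtain ⟨u, hu, huR⟩ := nearR_all (hI.toFinset.image ofPr) (fun i => v (toPr (i : P5))) w
    (fun i => U (toPr (i : P5))) V (fun i => hU (toPr (i : P5))) hV
  refine ⟨_, hVN ⟨huR, hUN ?_⟩, u, rfl⟩
  intro p hp
  exact hu ⟨ofPr p, Finset.mem_image_of_mem _ (hI.mem_toFinset.2 hp)⟩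

end KumWA
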